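import Pool.Agent.X109.LI.D

/-!
# The logarithmic integrals `∫_0^1 log^(n+1)(1-x) log^n(1+x) / (1+x) dx`

They are polynomials with rational coefficients in `π ^ 2`, `log 2` and the odd zeta values.

Proof. Let `F(α, β) = ∫_0^1 (1-x)^α (1+x)^(β-1) dx`. The Beta integral over `(-1, 1)`, the substitution
`x ↦ -x` on `(-1, 0)` and an integration by parts give
`β F(α, β) + α F(β, α) + 1 = 2^(α+β) Γ(1+α) Γ(1+β) / Γ(1+α+β)`.
The coefficient of `(α β)^(n+1)` on the left is `2 I_n / (n! (n+1)!)`; the right-hand side is the exponential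
of `(α+β) log 2 + ∑_{k ≥ 2} (-1)^k ζ(k) (α^k + β^k - (α+β)^k) / k`.
-/

set_option autoImplicit false

namespace Pool.Agent.Results.MP_cd3f56_nt.LogIntegral

/-- For every `n` (also for `n = 0`) the integral `I_n` converges absolutely and belongs to the
`ℚ`-subalgebra of `ℝ` generated by `π ^ 2`, `log 2` and the values `ζ(k)`, `k ≥ 3` odd. -/
theorem result (n : ℕ) :
    IntervalIntegrable (fun x : ℝ => Real.log (1 - x) ^ (n + 1) * Real.log (1 + x) ^ n / (1 + x))
      MeasureTheory.volume 0 1 ∧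
    (∫ x in (0 : ℝ)..1, Real.log (1 - x) ^ (n + 1) * Real.log (1 + x) ^ n / (1 + x)) ∈
      Algebra.adjoin ℚ ({Real.pi ^ 2, Real.log 2} ∪
        {z : ℝ | ∃ k : ℕ, 3 ≤ k ∧ Odd k ∧ z = ∑' m : ℕ, 1 / ((m : ℝ) + 1) ^ k}) := by
  constructor
  · rw [intervalIntegrable_iff_integrableOn_Ioo_of_le zero_le_one]
    have h := Pool.Agent.X109.LI.f_int (n + 1) n
    simp only [← mul_div_assoc] at h
    exact h
  · refine Pool.Agent.X109.LI.main _ ?_ ?_ ?_ n
    · exact Algebra.subset_adjoin (Or.inl (by simp))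
    · exact Algebra.subset_adjoin (Or.inl (by simp))
    · exact fun k h1 h2 => Algebra.subset_adjoin (Or.inr ⟨k, h1, h2, rfl⟩)

end Pool.Agent.Results.MP_cd3f56_nt.LogIntegral
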